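import Pool.Agent.W85.Leh.Final

namespace Pool.Agent.Results.MP_b50d59_nt.IndexInequality

/-- If `n > 1` is composite and `n - 1 = k φ(n)`, then `2 log k < (n - 1) / φ(n - 1)`. -/
theorem result (n k : ℕ) (hn : 1 < n) (hc : ¬ n.Prime) (h : n - 1 = k * n.totient) :
    2 * Real.log k < ((n - 1 : ℕ) : ℝ) / (n - 1).totient :=
  Pool.Agent.W85.Leh.index n k hn hc h

end Pool.Agent.Results.MP_b50d59_nt.IndexInequality
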