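import Pool.Agent.W85.Leh.Pair4

namespace Pool.Agent.Results.MP_b50d59_nt.PredecessorFourPrimes

/-- If `n > 1` is composite and `φ(n)` divides `n - 1`, then `n - 1` has at least four distinct
prime factors, and if it has exactly four then `11` or `23` is one of them. -/
theorem result (n : ℕ) (hn : 1 < n) (hc : ¬ n.Prime) (h : n.totient ∣ n - 1) :
    4 ≤ (n - 1).primeFactors.card ∧
      ((n - 1).primeFactors.card = 4 → 11 ∣ n - 1 ∨ 23 ∣ n - 1) :=
  ⟨Pool.Agent.W85.Leh.four n hn hc h, Pool.Agent.W85.Leh.four_pair n hn hc h⟩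

end Pool.Agent.Results.MP_b50d59_nt.PredecessorFourPrimes
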