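import Pool.Agent.W440.Leh.Sq3
import Pool.Agent.H95R2.Leh.Congr

set_option autoImplicit false

namespace Pool.Agent.Results.MP_b50d59_nt.SquareForms

open Pool.Agent.H95R2.Leh

/-- Let `n > 4` be composite with `φ(n) ∣ n - a(n)`.  Then `n` has at least `64`, `1016`, `183`
distinct prime factors if `n - 1` is a square, twice a square, three times a square,
respectively. -/
theorem result (n : ℕ) (h4 : 4 < n) (hc : ¬ n.Prime) (h : n.totient ∣ (n - Nca8c8b9b.a n)) :
    (∀ m : ℕ, n - 1 = m ^ 2 → 64 ≤ n.primeFactors.card) ∧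
    (∀ m : ℕ, n - 1 = 2 * m ^ 2 → 1016 ≤ n.primeFactors.card) ∧
    (∀ m : ℕ, n - 1 = 3 * m ^ 2 → 183 ≤ n.primeFactors.card) := by
  have hL := leh_of_congr h4 hc h
  refine ⟨?_, ?_, ?_⟩
  · intro m hm
    exact Pool.Agent.W440.Leh.square hL ⟨m, by rw [hm, pow_two]⟩
  · intro m hm
    exact Pool.Agent.W440.Leh.twice_square hL hm
  · intro m hm
    exact Pool.Agent.W440.Leh.thrice_square hL hm

end Pool.Agent.Results.MP_b50d59_nt.SquareForms
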