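import Mathlib
import Pool.Agent.Results.MP_ca0c05_nt.PredecessorPrimes

set_option autoImplicit false

namespace Pool.Agent.Results.MP_b50d59_nt.TwentyPrimes

open Finset

/-- `a(n)`: the largest exponent in the prime factorisation of `n` (0 for `n = 1`). -/
def maxExponent (n : ℕ) : ℕ := n.primeFactors.sup (fun p => n.factorization p)

lemma exponent_one (n : ℕ) (h4 : 4 < n) (hdvd : n.totient ∣ n - maxExponent n) :
    ∀ p ∈ n.primeFactors, n.factorization p = 1 := by
  have hn0 : n ≠ 0 := by omega
  have hle : ∀ p ∈ n.primeFactors, n.factorization p ≤ maxExponent n := by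
    intro p hp
    exact Finset.le_sup (f := fun p => n.factorization p) hp
  have hge : ∀ p ∈ n.primeFactors, 1 ≤ n.factorization p := by
    intro p hp
    exact Nat.one_le_iff_ne_zero.2 (Finsupp.mem_support_iff.1 (by simpa using hp))
  have hne : n.primeFactors.Nonempty := Nat.nonempty_primeFactors.2 (by omega)
  obtain ⟨p, hp, hpa⟩ := Finset.exists_mem_eq_sup n.primeFactors hne (fun p => n.factorization p)
  have hpa' : maxExponent n = n.factorization p := hpa
  by_cases h1 : maxExponent n = 1
  · intro q hq
    have a1 := hle q hq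
    have a2 := hge q hq
    omega
  exfalso
  have hpp := Nat.prime_of_mem_primeFactors hp
  have ha2 : 2 ≤ maxExponent n := by
    have := hge p hp
    omega
  set a := maxExponent n with ha
  have hpan : p ^ a ∣ n := by rw [hpa']; exact Nat.ordProj_dvd n p
  have hale : a < n := by
    rw [hpa']; exact Nat.factorization_lt p hn0
  have hphi : p ^ (a - 1) ∣ n.totient := by
    have b1 : (p ^ a).totient ∣ n.totient := Nat.totient_dvd_of_dvd hpan
    rw [Nat.totient_prime_pow hpp (by omega)] at b1
    exact (Dvd.intro _ rfl).trans b1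
  have hdiv : p ^ (a - 1) ∣ a := by
    have c1 : p ^ (a - 1) ∣ n - a := hphi.trans hdvd
    have c2 : p ^ (a - 1) ∣ n := (Nat.pow_dvd_pow p (by omega)).trans hpan
    have c3 : n - (n - a) = a := by omega
    have c4 := Nat.dvd_sub c2 c1
    rwa [c3] at c4
  have hle2 : p ^ (a - 1) ≤ a := Nat.le_of_dvd (by omega) hdiv
  have hp2 := hpp.two_le
  have hpow : 2 ^ (a - 1) ≤ a := (Nat.pow_le_pow_left hp2 _).trans hle2
  have haeq : a = 2 := by
    by_contra hne2
    have h3 : 3 ≤ a := by omega
    obtain ⟨k, hk⟩ := Nat.exists_eq_add_of_le h3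
    have h5 : ∀ k : ℕ, 3 + k < 2 ^ (k + 2) := by
      intro k
      induction k with
      | zero => norm_num
      | succ k ih => rw [show k + 1 + 2 = (k + 2) + 1 by ring, pow_succ]; omega
    have := h5 k
    rw [hk, show 3 + k - 1 = k + 2 by omega] at hpow
    omega
  have hpeq : p = 2 := by
    rw [haeq] at hle2
    norm_num at hle2
    omega
  -- n = 4 m with m odd
  have hfac2 : n.factorization 2 = 2 := by
    have e0 : n.factorization p = 2 := by rw [← hpa']; exact haeq
    rwa [hpeq] at e0
  have h4n : 4 ∣ n := by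
    have := hpan
    rw [hpeq, haeq] at this
    simpa using this
  obtain ⟨m, hm⟩ := h4n
  have hm1 : 1 < m := by omega
  have hmodd : ¬ 2 ∣ m := by
    rintro ⟨k, hk⟩
    have h8 : 2 ^ 3 ∣ n := ⟨k, by rw [hm, hk]; ring⟩
    have := (Nat.Prime.pow_dvd_iff_le_factorization Nat.prime_two hn0).1 h8
    omega
  have hcop : Nat.Coprime 4 m := by
    have : Nat.Coprime (2 ^ 2) m :=
      Nat.Coprime.pow_left 2 ((Nat.Prime.coprime_iff_not_dvd Nat.prime_two).2 hmodd)
    simpa using this
  have hphi4 : 4 ∣ n.totient := by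
    rw [hm, Nat.totient_mul hcop]
    have e1 : Nat.totient 4 = 2 := by decide
    have e2 : Even m.totient := Nat.totient_even (by
      have : m ≠ 2 := fun h => hmodd (by rw [h])
      omega)
    obtain ⟨k, hk⟩ := e2
    rw [e1, hk]
    exact ⟨k, by ring⟩
  have h4' : 4 ∣ n - a := hphi4.trans hdvd
  rw [haeq] at h4'
  omega

/-- If `n > 4` is composite, `φ(n)` divides `n - a(n)` and 3 does not divide `n - 1`, then `n - 1`
has at least twenty distinct prime divisors. -/
theorem result (n : ℕ) (h4 : 4 < n) (hc : ¬ n.Prime) (hdvd : n.totient ∣ n - maxExponent n)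
    (h3 : ¬ 3 ∣ n - 1) : 20 ≤ (n - 1).primeFactors.card := by
  have hn0 : n ≠ 0 := by omega
  have hone := exponent_one n h4 hdvd
  have hne : n.primeFactors.Nonempty := Nat.nonempty_primeFactors.2 (by omega)
  have ha : maxExponent n = 1 := by
    obtain ⟨p, hp, hpa⟩ := Finset.exists_mem_eq_sup n.primeFactors hne
      (fun p => n.factorization p)
    have hpa' : maxExponent n = n.factorization p := hpa
    rw [hpa', hone p hp]
  rw [ha] at hdvd
  have hphi : ∏ p ∈ n.primeFactors, (p ^ n.factorization p - 1) = n.totient := by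
    rw [Nat.totient_eq_prod_factorization hn0, Finsupp.prod]
    apply Finset.prod_congr (by simp)
    intro p hp
    have hp' : p ∈ n.primeFactors := by simpa using hp
    rw [hone p hp']
    simp
  refine Pool.Agent.Results.MP_ca0c05_nt.PredecessorPrimes.result n (by omega) (by rw [hphi]; exact hdvd) ?_ h3
  intro hpow
  rw [isPrimePow_nat_iff] at hpow
  obtain ⟨p, k, hp, hk, hpk⟩ := hpow
  have hmem : p ∈ n.primeFactors := by
    rw [Nat.mem_primeFactors]
    exact ⟨hp, by rw [← hpk]; exact dvd_pow_self p (by omega), hn0⟩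
  have h5 := hone p hmem
  rw [← hpk, Nat.Prime.factorization_pow hp] at h5
  simp at h5
  rw [h5, pow_one] at hpk
  exact hc (hpk ▸ hp)

end Pool.Agent.Results.MP_b50d59_nt.TwentyPrimes
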